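import Pool.Agent.Y184.RB.Rich

/-!
# The approximation theorem for functions which are locally constant on the non-ample locus
-/

set_option autoImplicit false

open Set Topology Filter
open scoped ContDiff Manifold

namespace Pool.Agent.Y184.RB

theorem exists_gap (F : Set ℝ) (hF : F.Finite) : ∃ γ : ℝ, 0 < γ ∧ ∀ c ∈ F, ∀ c' ∈ F, c ≠ c' →
    γ ≤ |c - c'| := by
  classical
  obtain ⟨G, rfl⟩ := hF.exists_finset_coe
  obtain ⟨P, hP⟩ : ∃ P, P = (G ×ˢ G).filter fun x : ℝ × ℝ => x.1 ≠ x.2 := ⟨_, rfl⟩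
  rcases P.eq_empty_or_nonempty with h0 | h0
  · refine ⟨1, one_pos, fun c hc c' hc' hne => ?_⟩
    exfalso
    have : ((c, c') : ℝ × ℝ) ∈ P := by
      rw [hP, Finset.mem_filter, Finset.mem_product]
      exact ⟨⟨hc, hc'⟩, hne⟩
    rw [h0] at this
    exact Finset.notMem_empty _ this
  · obtain ⟨x, hx, hmin⟩ := P.exists_min_image (fun x : ℝ × ℝ => |x.1 - x.2|) h0
    refine ⟨|x.1 - x.2|, ?_, fun c hc c' hc' hne => ?_⟩
    · rw [hP, Finset.mem_filter] at hx
      exact abs_pos.2 (sub_ne_zero.2 hx.2)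
    · refine hmin (c, c') ?_
      rw [hP, Finset.mem_filter, Finset.mem_product]
      exact ⟨⟨hc, hc'⟩, hne⟩

section

variable {n : ℕ} {Y : Type} [TopologicalSpace Y] [ChartedSpace (En n) Y]

theorem bdd_above [CompactSpace Y] {A : Set Y} {ψ : Y → ℝ}
    (h1 : ∀ p, p ∉ A → ContinuousAt ψ p) (h2 : ∀ p ∈ A, Tendsto ψ (𝓝[Aᶜ] p) atBot) :
    ∃ B : ℝ, 0 < B ∧ ∀ q, q ∉ A → ψ q ≤ B := by
  have h := (isCompact_univ (X := Y)).induction_on
    (p := fun s => ∃ B : ℝ, 0 < B ∧ ∀ q ∈ s, q ∉ A → ψ q ≤ B) ⟨1, one_pos, fun q hq => absurd hq (Set.notMem_empty q)⟩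
    (fun s t hst ⟨B, h1, h2⟩ => ⟨B, h1, fun q hq => h2 q (hst hq)⟩)
    (fun s t ⟨B, h1, h2⟩ ⟨B', h3, h4⟩ => ⟨max B B', lt_max_of_lt_left h1, fun q hq hA => by
      rcases hq with hq | hq
      · exact (h2 q hq hA).trans (le_max_left _ _)
      · exact (h4 q hq hA).trans (le_max_right _ _)⟩)
    (fun p _ => by
      by_cases hp : p ∈ A
      · have h3 := (h2 p hp).eventually (eventually_le_atBot (1 : ℝ))
        rw [eventually_nhdsWithin_iff] at h3
        exact ⟨_, mem_nhdsWithin_of_mem_nhds h3, 1, one_pos, fun q hq hA => hq hA⟩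
      · have h3 : ∀ᶠ q in 𝓝 p, ψ q < ψ p + 1 :=
          (h1 p hp).eventually (gt_mem_nhds (by linarith))
        refine ⟨_, mem_nhdsWithin_of_mem_nhds h3, |ψ p| + 1, by positivity, fun q hq _ => ?_⟩
        have h4 := le_abs_self (ψ p)
        have h5 : ψ q < ψ p + 1 := hq
        linarith)
  obtain ⟨B, h3, h4⟩ := h
  exact ⟨B, h3, fun q => h4 q (mem_univ q)⟩

theorem bdd_below [CompactSpace Y] {A O : Set Y} {ψ : Y → ℝ}
    (h1 : ∀ p, p ∉ A → ContinuousAt ψ p) (hO : IsOpen O) (hAO : A ⊆ O) :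
    ∃ B : ℝ, 0 < B ∧ ∀ q, q ∉ O → -B ≤ ψ q := by
  have hc : IsCompact Oᶜ := hO.isClosed_compl.isCompact
  have hco : ContinuousOn ψ Oᶜ := fun p hp =>
    (h1 p (fun h => hp (hAO h))).continuousWithinAt
  obtain ⟨B, hB⟩ := hc.exists_bound_of_continuousOn hco
  refine ⟨|B| + 1, by positivity, fun q hq => ?_⟩
  have h2 := hB q hq
  rw [Real.norm_eq_abs] at h2
  have h3 := neg_abs_le (ψ q)
  have h4 := le_abs_self B
  linarith

end

open Classical in
theorem app (hRich : StRich) (hMx : StMx) (hOp : StOp) : StApp := by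
  intro n Y _ _ hman hT2 hcpt Ω θ φ A hK hsemi hbig hφ hloc ε hε
  obtain ⟨hAc, δ, ψ, hδ, hψs, hψt, hψl⟩ := hbig
  obtain ⟨m, _, hm1, hm2, hm3, hm4⟩ := hMx
  have hm : IsM m := ⟨hm1, hm2, hm3⟩
  have hψc : ∀ p, p ∉ A → ContinuousAt ψ p := fun p hp => (hψs p hp).continuousAt
  have hSMψ : ∀ p ∈ Aᶜ, SM Ω θ δ ψ p := by
    intro p hp
    filter_upwards [hAc.isOpen_compl.mem_nhds hp] with q hq
    exact ⟨hψs q hq, fun f hf h0 => hψl f hf (by rw [h0]; exact hq)⟩
  obtain ⟨B0, hB0, hup⟩ := bdd_above hψc hψt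
  obtain ⟨B1, hB1, hφb⟩ : ∃ B1 : ℝ, 0 < B1 ∧ ∀ q, |φ q| ≤ B1 := by
    obtain ⟨B, hB⟩ := (isCompact_univ (X := Y)).exists_bound_of_continuousOn hφ.1.continuousOn
    refine ⟨|B| + 1, by positivity, fun q => ?_⟩
    have h2 := hB q (mem_univ q)
    rw [Real.norm_eq_abs] at h2
    have h4 := le_abs_self B
    linarith
  -- the finite set of values on `A`
  obtain ⟨F, hF⟩ : ∃ F, F = φ '' A := ⟨_, rfl⟩
  have hFfin : F.Finite := by
    have h := hAc.isCompact.induction_on (p := fun s => (φ '' (s ∩ A)).Finite)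
      (by simp) (fun s t hst h => h.subset (image_mono (inter_subset_inter_left A hst)))
      (fun s t h h' => by
        rw [union_inter_distrib_right, image_union]
        exact h.union h')
      (fun p hp => ⟨{q | φ q = φ p}, hloc p hp, (Set.finite_singleton (φ p)).subset (by
        rintro _ ⟨q, ⟨h1, _⟩, rfl⟩
        exact h1)⟩)
    rw [inter_self] at h
    rw [hF]
    exact h
  obtain ⟨γ, hγ, hgap⟩ := exists_gap F hFfin
  obtain ⟨e, he, heε, heγ⟩ : ∃ e : ℝ, 0 < e ∧ e ≤ ε / 4 ∧ e ≤ γ / 4 :=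
    ⟨min (ε / 4) (γ / 4), by positivity, min_le_left _ _, min_le_right _ _⟩
  have huniq : ∀ q, ∀ c ∈ F, ∀ c' ∈ F, |φ q - c| < e → |φ q - c'| < e → c = c' := by
    intro q c hc c' hc' h1 h2
    by_contra hne
    have h3 := hgap c hc c' hc' hne
    have h4 : |c - c'| ≤ |φ q - c| + |φ q - c'| := by
      have : c - c' = (φ q - c') - (φ q - c) := by ring
      rw [this, add_comm]
      exact abs_sub _ _
    linarith
  obtain ⟨V, hV⟩ : ∃ V : Set Y, V = {q | ∃ c ∈ F, |φ q - c| < e} := ⟨_, rfl⟩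
  obtain ⟨V2, hV2⟩ : ∃ V2 : Set Y, V2 = {q | ∃ c ∈ F, |φ q - c| < e / 2} := ⟨_, rfl⟩
  obtain ⟨V1, hV1⟩ : ∃ V1 : Set Y, V1 = {q | ∃ c ∈ F, |φ q - c| ≤ e / 2} := ⟨_, rfl⟩
  have hcont : ∀ c : ℝ, Continuous fun q => |φ q - c| := fun c => (hφ.1.sub continuous_const).abs
  have hVo : IsOpen V := by
    have h1 : V = ⋃ c ∈ F, {q | |φ q - c| < e} := by
      rw [hV]
      ext q
      simp
    rw [h1]
    exact isOpen_biUnion fun c _ => isOpen_lt (hcont c) continuous_const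
  have hV2o : IsOpen V2 := by
    have h1 : V2 = ⋃ c ∈ F, {q | |φ q - c| < e / 2} := by
      rw [hV2]
      ext q
      simp
    rw [h1]
    exact isOpen_biUnion fun c _ => isOpen_lt (hcont c) continuous_const
  have hV1c : IsClosed V1 := by
    have h1 : V1 = ⋃ c ∈ F, {q | |φ q - c| ≤ e / 2} := by
      rw [hV1]
      ext q
      simp
    rw [h1]
    exact hFfin.isClosed_biUnion fun c _ => isClosed_le (hcont c) continuous_const
  have hAV2 : A ⊆ V2 := by
    intro q hq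
    rw [hV2]
    refine ⟨φ q, ?_, ?_⟩
    · rw [hF]
      exact ⟨q, hq, rfl⟩
    · rw [sub_self, abs_zero]
      positivity
  have hV21 : V2 ⊆ V1 := by
    rw [hV2, hV1]
    rintro q ⟨c, hc, h⟩
    exact ⟨c, hc, h.le⟩
  have hV1V : V1 ⊆ V := by
    rw [hV1, hV]
    rintro q ⟨c, hc, h⟩
    exact ⟨c, hc, by linarith⟩
  obtain ⟨κ, hκ⟩ : ∃ κ : Y → ℝ, ∀ q ∈ V, κ q ∈ F ∧ |φ q - κ q| < e := by
    refine ⟨fun q => if h : ∃ c ∈ F, |φ q - c| < e then h.choose else 0, fun q hq => ?_⟩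
    rw [hV] at hq
    have hq' : ∃ c ∈ F, |φ q - c| < e := hq
    simp only [hq', dif_pos]
    exact hq'.choose_spec
  have hκloc : ∀ q ∈ V, ∀ᶠ q' in 𝓝 q, q' ∈ V ∧ κ q' = κ q := by
    intro q hq
    have h1 : ∀ᶠ q' in 𝓝 q, |φ q' - κ q| < e :=
      (hcont (κ q)).continuousAt.eventually (gt_mem_nhds (hκ q hq).2)
    filter_upwards [hVo.mem_nhds hq, h1] with q' h2 h3
    exact ⟨h2, huniq q' _ (hκ q' h2).1 _ (hκ q hq).1 (hκ q' h2).2 h3⟩
  have hκB : ∀ q ∈ V, -B1 ≤ κ q := by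
    intro q hq
    have h1 := (hκ q hq).1
    rw [hF] at h1
    obtain ⟨q', _, h2⟩ := h1
    rw [← h2]
    exact (abs_le.1 (hφb q')).1
  obtain ⟨B2, hB2, hlow⟩ := bdd_below hψc hV2o hAV2
  -- the parameter `t`
  obtain ⟨t, ht, ht1, htB⟩ : ∃ t : ℝ, 0 < t ∧ t < 1 ∧ t * (B0 + B1 + B2) ≤ e / 8 := by
    have h1 : 0 < B0 + B1 + B2 := by positivity
    refine ⟨min (1 / 2) (e / 8 / (B0 + B1 + B2)), by positivity, ?_, ?_⟩
    · have := min_le_left (1 / 2 : ℝ) (e / 8 / (B0 + B1 + B2))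
      linarith
    · have h2 := min_le_right (1 / 2 : ℝ) (e / 8 / (B0 + B1 + B2))
      rwa [le_div_iff₀ h1] at h2
  have htB0 : 0 < t * B0 := by positivity
  have htB1 : 0 < t * B1 := by positivity
  have htB2 : 0 < t * B2 := by positivity
  obtain ⟨g, hg⟩ : ∃ g : Y → ℝ, g = fun q => (1 - t) * φ q + t * ψ q := ⟨_, rfl⟩
  have hgup : ∀ q, q ∉ A → g q ≤ φ q + e / 8 := by
    intro q hq
    have h1 := mul_le_mul_of_nonneg_left (hup q hq) ht.le
    have h2 := mul_le_mul_of_nonneg_left (abs_le.1 (hφb q)).1 ht.le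
    rw [hg]
    simp only
    nlinarith
  have hglow : ∀ q, q ∉ V2 → φ q - e / 8 ≤ g q := by
    intro q hq
    have h1 := mul_le_mul_of_nonneg_left (hlow q hq) ht.le
    have h2 := mul_le_mul_of_nonneg_left (abs_le.1 (hφb q)).2 ht.le
    rw [hg]
    simp only
    nlinarith
  obtain ⟨M, hM1, hM2⟩ : ∃ M : ℝ, 2 * B1 + 3 * e ≤ t * M ∧ B2 ≤ M := by
    refine ⟨(2 * B1 + 3 * e) / t + B2, ?_, ?_⟩
    · rw [mul_add, mul_div_cancel₀ _ ht.ne']
      linarith
    · have : 0 < (2 * B1 + 3 * e) / t := by positivity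
      linarith
  obtain ⟨V0, hV0⟩ : ∃ V0 : Set Y, V0 = {q | q ∉ A → ψ q < -M} := ⟨_, rfl⟩
  have hV0o : IsOpen V0 := by
    rw [isOpen_iff_mem_nhds]
    intro p hp
    rw [hV0] at hp ⊢
    by_cases hpA : p ∈ A
    · have h3 := (hψt p hpA).eventually (eventually_lt_atBot (-M))
      rw [eventually_nhdsWithin_iff] at h3
      exact h3
    · have h3 : ∀ᶠ q in 𝓝 p, ψ q < -M := (hψc p hpA).eventually (gt_mem_nhds (hp hpA))
      filter_upwards [h3] with q hq _
      exact hq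
  have hV02 : V0 ⊆ V2 := by
    intro q hq
    by_contra h1
    rw [hV0] at hq
    have h2 := hq (fun h => h1 (hAV2 h))
    have h3 := hlow q h1
    linarith
  obtain ⟨U, hUo, hKU, hUA, hv⟩ := hRich n Y hman hT2 Ω θ φ ψ δ t hK hφ hδ ht ht1 V0ᶜ Aᶜ
    hV0o.isClosed_compl.isCompact hAc.isOpen_compl (fun q hq hA => hq (by
      rw [hV0]
      exact fun h => absurd hA h)) hSMψ
  obtain ⟨χ, hχ⟩ := hv (e / 8) (by positivity)
  have hχs : ∀ q ∈ U, SM Ω θ 0 χ q := fun q hq =>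
    (hOp n Y hman Ω θ q hK).1 _ _ _ (by positivity) (hχ q hq).1
  have hχg : ∀ q ∈ U, |χ q - g q| < e / 8 := fun q hq => by
    rw [hg]
    exact (hχ q hq).2
  have he2 : 0 < e / 2 := by positivity
  obtain ⟨u, hu⟩ : ∃ u : Y → ℝ, u = fun q => if q ∈ V then
    (if q ∈ U then Mx m (e / 2) (χ q) (κ q - 2 * e) else κ q - 2 * e) else χ q := ⟨_, rfl⟩
  -- comparison outside `V2`
  have hcmp1 : ∀ q ∈ V, q ∈ U → q ∉ V2 → Mx m (e / 2) (χ q) (κ q - 2 * e) = χ q := by
    intro q h1 h2 h3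
    apply Mx_right hm he2
    have h4 := (hκ q h1).2
    have h5 := hχg q h2
    have h6 := hglow q h3
    rw [abs_lt] at h4 h5
    linarith
  have hcmp2 : ∀ q ∈ V, q ∈ U → q ∈ V0 → Mx m (e / 2) (χ q) (κ q - 2 * e) = κ q - 2 * e := by
    intro q h1 h2 h3
    apply Mx_left hm he2
    have h5 := hχg q h2
    rw [hV0] at h3
    have h6 := h3 (hUA h2)
    have h7 := mul_lt_mul_of_pos_left h6 ht
    have h8 := hκB q h1
    have h9 := (abs_le.1 (hφb q)).2
    have h10 : (1 - t) * φ q ≤ B1 := by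
      have h11 : (1 - t) * φ q ≤ (1 - t) * B1 := mul_le_mul_of_nonneg_left h9 (by linarith)
      nlinarith
    have h12 : g q ≤ B1 + t * (-M) := by
      rw [hg]
      simp only
      linarith
    rw [abs_lt] at h5
    nlinarith
  have hSM : ∀ q, SM Ω θ 0 u q := by
    intro q
    by_cases hqV : q ∈ V
    · by_cases hqU : q ∈ U
      · have h1 : SM Ω θ 0 (fun q' => κ q' - 2 * e) q :=
          (hOp n Y hman Ω θ q hK).2.2.2 _ (κ q - 2 * e) hsemi (by
            filter_upwards [hκloc q hqV] with q' h2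
            rw [h2.2])
        refine (hOp n Y hman Ω θ q hK).2.1 _ _ _ ?_
          (hm4 n Y hman Ω θ 0 (e / 2) χ (fun q' => κ q' - 2 * e) q he2 (hχs q hqU) h1)
        filter_upwards [hVo.mem_nhds hqV, hUo.mem_nhds hqU] with q' h2 h3
        rw [hu]
        simp only [h2, h3, if_true]
        rfl
      · have hq0 : q ∈ V0 := by
          by_contra h
          exact hqU (hKU h)
        refine (hOp n Y hman Ω θ q hK).2.2.2 _ (κ q - 2 * e) hsemi ?_
        filter_upwards [hκloc q hqV, hV0o.mem_nhds hq0] with q' h2 h3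
        rw [hu]
        simp only [h2.1, if_true]
        by_cases h4 : q' ∈ U
        · rw [if_pos h4, hcmp2 q' h2.1 h4 h3, h2.2]
        · rw [if_neg h4, h2.2]
    · have hq1 : q ∉ V1 := fun h => hqV (hV1V h)
      have hqU : q ∈ U := hKU fun h => hqV (hV1V (hV21 (hV02 h)))
      refine (hOp n Y hman Ω θ q hK).2.1 _ _ _ ?_ (hχs q hqU)
      filter_upwards [hV1c.isOpen_compl.mem_nhds hq1, hUo.mem_nhds hqU] with q' h2 h3
      rw [hu]
      by_cases h4 : q' ∈ V
      · simp only [h4, h3, if_true]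
        exact (hcmp1 q' h4 h3 fun h => h2 (hV21 h)).symm
      · simp only [h4, if_false]
  refine ⟨u, ⟨fun q => (hSM q).self_of_nhds.1, fun f hf => ?_⟩, fun q => ?_⟩
  · have h1 := (hSM (f 0)).self_of_nhds.2 f hf rfl
    rwa [zero_mul] at h1
  · by_cases hqV : q ∈ V
    · have h4 := (hκ q hqV).2
      rw [abs_lt] at h4
      by_cases hqU : q ∈ U
      · have h1 : u q = Mx m (e / 2) (χ q) (κ q - 2 * e) := by
          rw [hu]
          simp only [hqV, hqU, if_true]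
        obtain ⟨h5, h6⟩ := Mx_bd hm (x := χ q) (y := κ q - 2 * e) he2
        have h7 := hχg q hqU
        have h8 := hgup q (hUA hqU)
        rw [abs_lt] at h7
        have h9 : κ q - 2 * e ≤ max (χ q) (κ q - 2 * e) := le_max_right _ _
        have h10 : max (χ q) (κ q - 2 * e) ≤ φ q + e := max_le (by linarith) (by linarith)
        rw [h1, abs_le]
        constructor <;> linarith
      · have h1 : u q = κ q - 2 * e := by
          rw [hu]
          simp only [hqV, hqU, if_true, if_false]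
        rw [h1, abs_le]
        constructor <;> linarith
    · have h1 : u q = χ q := by
        rw [hu]
        simp only [hqV, if_false]
      have hq2 : q ∉ V2 := fun h => hqV (hV1V (hV21 h))
      have hqU : q ∈ U := hKU fun h => hq2 (hV02 h)
      have h7 := hχg q hqU
      have h8 := hgup q (hUA hqU)
      have h9 := hglow q hq2
      rw [abs_lt] at h7
      rw [h1, abs_le]
      constructor <;> linarith

end Pool.Agent.Y184.RB
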