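import Pool.Agent.Y184.RB.App

/-!
# The approximation theorem
-/

set_option autoImplicit false

open Set Topology Filter
open scoped ContDiff Manifold

namespace Pool.Agent.Y184.RB

section

variable {n : ℕ} {Y : Type} [TopologicalSpace Y] [ChartedSpace (En n) Y]

theorem IsSmoothPsh.sm {Ω θ : Form n Y} {u : Y → ℝ} (hu : IsSmoothPsh θ u) (p : Y) :
    SM Ω θ 0 u p := by
  refine Eventually.of_forall fun q => ⟨hu.1 q, fun f hf _ => ?_⟩
  rw [zero_mul]
  exact hu.2 f hf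

theorem isSmoothPsh_of {Ω θ : Form n Y} {u : Y → ℝ} (h : ∀ p, SM Ω θ 0 u p) :
    IsSmoothPsh θ u := by
  refine ⟨fun q => (h q).self_of_nhds.1, fun f hf => ?_⟩
  have h1 := (h (f 0)).self_of_nhds.2 f hf rfl
  rwa [zero_mul] at h1

theorem IsSmoothPsh.add_const (hOp : StOp) (hman : IsManifold 𝓘(ℂ, En n) ω Y) {Ω θ : Form n Y}
    (hK : Ω.IsKahler) {u : Y → ℝ} (hu : IsSmoothPsh θ u) (c : ℝ) :
    IsSmoothPsh θ (fun q => u q + c) := by
  apply isSmoothPsh_of (Ω := Ω)
  intro p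
  have h1 := (hOp n Y hman Ω θ p hK).2.2.1 0 0 0 c u (fun _ => 0) le_rfl (hu.sm p)
    contMDiff_const (fun f _ => by
      have h2 : Laplacian.laplacian (fun _ : ℂ => (0 : ℝ)) (0 : ℂ) = 0 := by
        simp [InnerProductSpace.laplacian_eq_iteratedFDeriv_complexPlane]
      rw [h2, abs_zero, zero_mul])
  simpa using h1

end

/-- the approximation theorem, from its parts -/
theorem final (hApp : StApp) (hNull : StNull) (hOp : StOp) (n : ℕ) (Y : Type) [TopologicalSpace Y]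
    [ChartedSpace (En n) Y] (hman : IsManifold 𝓘(ℂ, En n) ω Y) (hT2 : T2Space Y)
    (hcpt : CompactSpace Y) (Ω θ : Form n Y) (A : Set Y) (hK : Ω.IsKahler)
    (hsemi : θ.Semipositive) (hbig : BigOff Ω θ A)
    (hchain : ∀ p ∈ A, ∀ᶠ q in 𝓝[A] p, Relation.EqvGen (NullCurve θ A) p q)
    (φ : ℕ → Y → ℝ) (hφ : ∀ k, IsPsh θ (φ k)) (hdec : ∀ k q, φ (k + 1) q ≤ φ k q) :
    ∃ u : ℕ → Y → ℝ, (∀ k, IsSmoothPsh θ (u k)) ∧ (∀ k q, u (k + 1) q ≤ u k q) ∧
      ∀ k q, φ k q ≤ u k q ∧ u k q ≤ φ k q + (1 / 2) ^ k := by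
  have hconst : ∀ k, ∀ p q, Relation.EqvGen (NullCurve θ A) p q → φ k q = φ k p := by
    intro k p q h
    induction h with
    | rel p q h => exact (hNull n Y hman θ (φ k) A (hφ k) p q h).symm
    | refl p => rfl
    | symm p q _ h => exact h.symm
    | trans p q r _ _ h h' => exact h'.trans h
  have happ := fun k => hApp n Y hman hT2 hcpt Ω θ (φ k) A hK hsemi hbig (hφ k) fun p hp => by
    filter_upwards [hchain p hp] with q hq
    exact hconst k p q hq
  have hpos : ∀ k : ℕ, (0 : ℝ) < (1 / 2) ^ k / 8 := fun k => by positivity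
  choose v hv1 hv2 using fun k : ℕ => happ k ((1 / 2) ^ k / 8) (hpos k)
  refine ⟨fun k q => v k q + 3 * ((1 / 2) ^ k / 8),
    fun k => (hv1 k).add_const hOp hman hK _, fun k q => ?_, fun k q => ?_⟩
  · have h1 := hv2 k q
    have h2 := hv2 (k + 1) q
    rw [abs_le] at h1 h2
    have h3 : ((1 : ℝ) / 2) ^ (k + 1) = (1 / 2) ^ k / 2 := by
      rw [pow_succ]
      ring
    have h4 := hdec k q
    simp only [h3] at h2 ⊢
    linarith
  · have h1 := hv2 k q
    rw [abs_le] at h1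
    have h2 := hpos k
    simp only
    constructor <;> linarith

end Pool.Agent.Y184.RB
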