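import Pool.Agent.Y184.RB.App
import Pool.Agent.Y184.RB.Fin

/-!
# Localisation of the approximation problem along the non-ample locus
-/

set_option autoImplicit false

open Set Topology Filter
open scoped ContDiff Manifold

namespace Pool.Agent.Y184.RB

open Classical in
theorem appL (hRich : StRich) (hMx : StMx) (hOp : StOp) (n : ℕ) (Y : Type) [TopologicalSpace Y]
    [ChartedSpace (En n) Y] (hman : IsManifold 𝓘(ℂ, En n) ω Y) (hT2 : T2Space Y)
    (hcpt : CompactSpace Y) (Ω θ : Form n Y) (φ : Y → ℝ) (A : Set Y) (hK : Ω.IsKahler)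
    (hbig : BigOff Ω θ A) (hφ : IsPsh θ φ)
    (hnear : ∀ ε : ℝ, 0 < ε → ∃ (V : Set Y) (h : Y → ℝ), IsOpen V ∧ A ⊆ V ∧
      ∀ q ∈ V, SM Ω θ 0 h q ∧ |h q - φ q| < ε) (ε : ℝ) (hε : 0 < ε) :
    ∃ u : Y → ℝ, IsSmoothPsh θ u ∧ ∀ q, |u q - φ q| ≤ ε := by
  obtain ⟨hAc, δ, ψ, hδ, hψs, hψt, hψl⟩ := hbig
  obtain ⟨m, _, hm1, hm2, hm3, hm4⟩ := hMx
  have hm : IsM m := ⟨hm1, hm2, hm3⟩
  have hψc : ∀ p, p ∉ A → ContinuousAt ψ p := fun p hp => (hψs p hp).continuousAt
  have hSMψ : ∀ p ∈ Aᶜ, SM Ω θ δ ψ p := by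
    intro p hp
    filter_upwards [hAc.isOpen_compl.mem_nhds hp] with q hq
    exact ⟨hψs q hq, fun f hf h0 => hψl f hf (by rw [h0]; exact hq)⟩
  obtain ⟨B0, hB0, hup⟩ := bdd_above hψc hψt
  obtain ⟨B1, hB1, hφb⟩ : ∃ B1 : ℝ, 0 < B1 ∧ ∀ q, |φ q| ≤ B1 := by
    obtain ⟨B, hB⟩ := (isCompact_univ (X := Y)).exists_bound_of_continuousOn hφ.1.continuousOn
    refine ⟨|B| + 1, by positivity, fun q => ?_⟩
    have h2 := hB q (mem_univ q)
    rw [Real.norm_eq_abs] at h2
    have h4 := le_abs_self B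
    linarith
  obtain ⟨e, he, heε⟩ : ∃ e : ℝ, 0 < e ∧ e ≤ ε / 4 := ⟨ε / 4, by positivity, le_rfl⟩
  obtain ⟨V, κ, hVo, hAV, hκ⟩ := hnear e he
  obtain ⟨V2, hV2o, hAV2, hV2V⟩ := normal_exists_closure_subset hAc hVo hAV
  obtain ⟨V1, hV1⟩ : ∃ V1 : Set Y, V1 = closure V2 := ⟨_, rfl⟩
  have hV1c : IsClosed V1 := hV1 ▸ isClosed_closure
  have hV21 : V2 ⊆ V1 := hV1 ▸ subset_closure
  have hV1V : V1 ⊆ V := hV1 ▸ hV2V
  have hκB : ∀ q ∈ V, -B1 - e ≤ κ q := by
    intro q hq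
    have h1 := (hκ q hq).2
    rw [abs_lt] at h1
    have h2 := (abs_le.1 (hφb q)).1
    linarith
  obtain ⟨B2, hB2, hlow⟩ := bdd_below hψc hV2o hAV2
  -- the parameter `t`
  obtain ⟨t, ht, ht1, htB⟩ : ∃ t : ℝ, 0 < t ∧ t < 1 ∧ t * (B0 + B1 + B2) ≤ e / 8 := by
    have h1 : 0 < B0 + B1 + B2 := by positivity
    refine ⟨min (1 / 2) (e / 8 / (B0 + B1 + B2)), by positivity, ?_, ?_⟩
    · have := min_le_left (1 / 2 : ℝ) (e / 8 / (B0 + B1 + B2))
      linarith
    · have h2 := min_le_right (1 / 2 : ℝ) (e / 8 / (B0 + B1 + B2))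
      rwa [le_div_iff₀ h1] at h2
  have htB0 : 0 < t * B0 := by positivity
  have htB1 : 0 < t * B1 := by positivity
  have htB2 : 0 < t * B2 := by positivity
  obtain ⟨g, hg⟩ : ∃ g : Y → ℝ, g = fun q => (1 - t) * φ q + t * ψ q := ⟨_, rfl⟩
  have hgup : ∀ q, q ∉ A → g q ≤ φ q + e / 8 := by
    intro q hq
    have h1 := mul_le_mul_of_nonneg_left (hup q hq) ht.le
    have h2 := mul_le_mul_of_nonneg_left (abs_le.1 (hφb q)).1 ht.le
    rw [hg]
    simp only
    nlinarith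
  have hglow : ∀ q, q ∉ V2 → φ q - e / 8 ≤ g q := by
    intro q hq
    have h1 := mul_le_mul_of_nonneg_left (hlow q hq) ht.le
    have h2 := mul_le_mul_of_nonneg_left (abs_le.1 (hφb q)).2 ht.le
    rw [hg]
    simp only
    nlinarith
  obtain ⟨M, hM1, hM2⟩ : ∃ M : ℝ, 2 * B1 + 4 * e ≤ t * M ∧ B2 ≤ M := by
    refine ⟨(2 * B1 + 4 * e) / t + B2, ?_, ?_⟩
    · rw [mul_add, mul_div_cancel₀ _ ht.ne']
      linarith
    · have : 0 < (2 * B1 + 4 * e) / t := by positivity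
      linarith
  obtain ⟨V0, hV0⟩ : ∃ V0 : Set Y, V0 = {q | q ∉ A → ψ q < -M} := ⟨_, rfl⟩
  have hV0o : IsOpen V0 := by
    rw [isOpen_iff_mem_nhds]
    intro p hp
    rw [hV0] at hp ⊢
    by_cases hpA : p ∈ A
    · have h3 := (hψt p hpA).eventually (eventually_lt_atBot (-M))
      rw [eventually_nhdsWithin_iff] at h3
      exact h3
    · have h3 : ∀ᶠ q in 𝓝 p, ψ q < -M := (hψc p hpA).eventually (gt_mem_nhds (hp hpA))
      filter_upwards [h3] with q hq _
      exact hq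
  have hV02 : V0 ⊆ V2 := by
    intro q hq
    by_contra h1
    rw [hV0] at hq
    have h2 := hq (fun h => h1 (hAV2 h))
    have h3 := hlow q h1
    linarith
  obtain ⟨U, hUo, hKU, hUA, hv⟩ := hRich n Y hman hT2 Ω θ φ ψ δ t hK hφ hδ ht ht1 V0ᶜ Aᶜ
    hV0o.isClosed_compl.isCompact hAc.isOpen_compl (fun q hq hA => hq (by
      rw [hV0]
      exact fun h => absurd hA h)) hSMψ
  obtain ⟨χ, hχ⟩ := hv (e / 8) (by positivity)
  have hχs : ∀ q ∈ U, SM Ω θ 0 χ q := fun q hq =>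
    (hOp n Y hman Ω θ q hK).1 _ _ _ (by positivity) (hχ q hq).1
  have hχg : ∀ q ∈ U, |χ q - g q| < e / 8 := fun q hq => by
    rw [hg]
    exact (hχ q hq).2
  have he2 : 0 < e / 2 := by positivity
  obtain ⟨u, hu⟩ : ∃ u : Y → ℝ, u = fun q => if q ∈ V then
    (if q ∈ U then Mx m (e / 2) (χ q) (κ q - 2 * e) else κ q - 2 * e) else χ q := ⟨_, rfl⟩
  -- comparison outside `V2`
  have hcmp1 : ∀ q ∈ V, q ∈ U → q ∉ V2 → Mx m (e / 2) (χ q) (κ q - 2 * e) = χ q := by
    intro q h1 h2 h3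
    apply Mx_right hm he2
    have h4 := (hκ q h1).2
    have h5 := hχg q h2
    have h6 := hglow q h3
    rw [abs_lt] at h4 h5
    linarith
  have hcmp2 : ∀ q ∈ V, q ∈ U → q ∈ V0 → Mx m (e / 2) (χ q) (κ q - 2 * e) = κ q - 2 * e := by
    intro q h1 h2 h3
    apply Mx_left hm he2
    have h5 := hχg q h2
    rw [hV0] at h3
    have h6 := h3 (hUA h2)
    have h7 := mul_lt_mul_of_pos_left h6 ht
    have h8 := hκB q h1
    have h9 := (abs_le.1 (hφb q)).2
    have h10 : (1 - t) * φ q ≤ B1 := by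
      have h11 : (1 - t) * φ q ≤ (1 - t) * B1 := mul_le_mul_of_nonneg_left h9 (by linarith)
      nlinarith
    have h12 : g q ≤ B1 + t * (-M) := by
      rw [hg]
      simp only
      linarith
    rw [abs_lt] at h5
    nlinarith
  have hκ2 : ∀ q ∈ V, SM Ω θ 0 (fun q' => κ q' - 2 * e) q := by
    intro q hq
    have h1 := (hOp n Y hman Ω θ q hK).2.2.1 0 0 0 (-(2 * e)) κ (fun _ => 0) le_rfl (hκ q hq).1
      contMDiff_const (fun f _ => by
        have h2 : Laplacian.laplacian (fun _ : ℂ => (0 : ℝ)) (0 : ℂ) = 0 := by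
          simp
        rw [h2, abs_zero, zero_mul])
    simpa [sub_eq_add_neg] using h1
  have hSM : ∀ q, SM Ω θ 0 u q := by
    intro q
    by_cases hqV : q ∈ V
    · by_cases hqU : q ∈ U
      · have h1 : SM Ω θ 0 (fun q' => κ q' - 2 * e) q := hκ2 q hqV
        refine (hOp n Y hman Ω θ q hK).2.1 _ _ _ ?_
          (hm4 n Y hman Ω θ 0 (e / 2) χ (fun q' => κ q' - 2 * e) q he2 (hχs q hqU) h1)
        filter_upwards [hVo.mem_nhds hqV, hUo.mem_nhds hqU] with q' h2 h3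
        rw [hu]
        simp only [h2, h3, if_true]
        rfl
      · have hq0 : q ∈ V0 := by
          by_contra h
          exact hqU (hKU h)
        refine (hOp n Y hman Ω θ q hK).2.1 _ _ _ ?_ (hκ2 q hqV)
        filter_upwards [hVo.mem_nhds hqV, hV0o.mem_nhds hq0] with q' h2 h3
        rw [hu]
        simp only [h2, if_true]
        by_cases h4 : q' ∈ U
        · rw [if_pos h4, hcmp2 q' h2 h4 h3]
        · rw [if_neg h4]
    · have hq1 : q ∉ V1 := fun h => hqV (hV1V h)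
      have hqU : q ∈ U := hKU fun h => hqV (hV1V (hV21 (hV02 h)))
      refine (hOp n Y hman Ω θ q hK).2.1 _ _ _ ?_ (hχs q hqU)
      filter_upwards [hV1c.isOpen_compl.mem_nhds hq1, hUo.mem_nhds hqU] with q' h2 h3
      rw [hu]
      by_cases h4 : q' ∈ V
      · simp only [h4, h3, if_true]
        exact (hcmp1 q' h4 h3 fun h => h2 (hV21 h)).symm
      · simp only [h4, if_false]
  refine ⟨u, ⟨fun q => (hSM q).self_of_nhds.1, fun f hf => ?_⟩, fun q => ?_⟩
  · have h1 := (hSM (f 0)).self_of_nhds.2 f hf rfl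
    rwa [zero_mul] at h1
  · by_cases hqV : q ∈ V
    · have h4 := (hκ q hqV).2
      rw [abs_lt] at h4
      by_cases hqU : q ∈ U
      · have h1 : u q = Mx m (e / 2) (χ q) (κ q - 2 * e) := by
          rw [hu]
          simp only [hqV, hqU, if_true]
        obtain ⟨h5, h6⟩ := Mx_bd hm (x := χ q) (y := κ q - 2 * e) he2
        have h7 := hχg q hqU
        have h8 := hgup q (hUA hqU)
        rw [abs_lt] at h7
        have h9 : κ q - 2 * e ≤ max (χ q) (κ q - 2 * e) := le_max_right _ _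
        have h10 : max (χ q) (κ q - 2 * e) ≤ φ q + e := max_le (by linarith) (by linarith)
        rw [h1, abs_le]
        constructor <;> linarith
      · have h1 : u q = κ q - 2 * e := by
          rw [hu]
          simp only [hqV, hqU, if_true, if_false]
        rw [h1, abs_le]
        constructor <;> linarith
    · have h1 : u q = χ q := by
        rw [hu]
        simp only [hqV, if_false]
      have hq2 : q ∉ V2 := fun h => hqV (hV1V (hV21 h))
      have hqU : q ∈ U := hKU fun h => hq2 (hV02 h)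
      have h7 := hχg q hqU
      have h8 := hgup q (hUA hqU)
      have h9 := hglow q hq2
      rw [abs_lt] at h7
      rw [h1, abs_le]
      constructor <;> linarith

end Pool.Agent.Y184.RB
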