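import Mathlib

/-!
# Smooth approximation of continuous quasi-plurisubharmonic functions: definitions and parts
-/

set_option autoImplicit false

open Set Topology Filter
open scoped ContDiff Manifold

namespace Pool.Agent.Y184.RB

/-- the model of a complex manifold of dimension `n` -/
abbrev En (n : ℕ) : Type := Fin n → ℂ

/-- `f` is (near `0`) a holomorphic disc in the complex manifold `Y` -/
def IsDisc (n : ℕ) {Y : Type} [TopologicalSpace Y] [ChartedSpace (En n) Y] (f : ℂ → Y) : Prop :=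
  ContMDiffAt 𝓘(ℂ, ℂ) 𝓘(ℂ, En n) ω f 0

/-- A smooth closed real `(1,1)`-form on the complex manifold `Y`, given by its local potentials: it
is `dd^c (pot p)` near `p`, where the function `pot p` is smooth near `p`. For `q` near `p` the
functions `pot p` and `pot q` have the same Laplacian at `q` along all discs through `q`. -/
structure Form (n : ℕ) (Y : Type) [TopologicalSpace Y] [ChartedSpace (En n) Y] where
  pot : Y → Y → ℝ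
  smooth : ∀ p, ∀ᶠ q in 𝓝 p, ContMDiffAt 𝓘(ℝ, En n) 𝓘(ℝ, ℝ) ∞ (pot p) q
  compat : ∀ p, ∀ᶠ q in 𝓝 p, ∀ f : ℂ → Y, IsDisc n f → f 0 = q →
    Laplacian.laplacian (fun ζ : ℂ => pot p (f ζ) - pot q (f ζ)) 0 = 0

section

variable {n : ℕ} {Y : Type} [TopologicalSpace Y] [ChartedSpace (En n) Y]

/-- The value of the form on the tangent vector of the disc `f` at `f 0` (up to a constant factor,
`θ (v, J v)` for the tangent vector `v` of `f` at `0`). -/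
noncomputable def Form.val (θ : Form n Y) (f : ℂ → Y) : ℝ :=
  Laplacian.laplacian (fun ζ : ℂ => θ.pot (f 0) (f ζ)) 0

/-- The form is positive (a Kähler form). -/
def Form.IsKahler (Ω : Form n Y) : Prop :=
  ∀ f : ℂ → Y, IsDisc n f → mfderiv 𝓘(ℂ, ℂ) 𝓘(ℂ, En n) f 0 ≠ 0 → 0 < Ω.val f

/-- The form is semipositive. -/
def Form.Semipositive (θ : Form n Y) : Prop := ∀ f : ℂ → Y, IsDisc n f → 0 ≤ θ.val f

/-- The function `φ` (continuous near `p`) is plurisubharmonic near `p`: it has the submean value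
property on the holomorphic discs in a neighbourhood of `p`. -/
def PshAt (n : ℕ) {Y : Type} [TopologicalSpace Y] [ChartedSpace (En n) Y] (φ : Y → ℝ) (p : Y) :
    Prop := ∃ N ∈ 𝓝 p, ∀ f : ℂ → Y,
  (∀ ζ : ℂ, ‖ζ‖ ≤ 1 → ContMDiffAt 𝓘(ℂ, ℂ) 𝓘(ℂ, En n) ω f ζ ∧ f ζ ∈ N) →
    φ (f 0) ≤ Real.circleAverage (fun ζ => φ (f ζ)) 0 1

/-- The continuous function `φ` is `θ`-plurisubharmonic. -/
def IsPsh (θ : Form n Y) (φ : Y → ℝ) : Prop :=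
  Continuous φ ∧ ∀ p, PshAt n (fun q => θ.pot p q + φ q) p

/-- The smooth function `u` is `θ`-plurisubharmonic: `θ + dd^c u ≥ 0`. -/
def IsSmoothPsh (θ : Form n Y) (u : Y → ℝ) : Prop :=
  ContMDiff 𝓘(ℝ, En n) 𝓘(ℝ, ℝ) ∞ u ∧
    ∀ f : ℂ → Y, IsDisc n f → 0 ≤ θ.val f + Laplacian.laplacian (fun ζ : ℂ => u (f ζ)) 0

/-- The points `p` and `q` are on a compact curve in `A` (the image of a compact connected Riemann
surface) on which the form `θ` vanishes. -/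
def NullCurve (θ : Form n Y) (A : Set Y) (p q : Y) : Prop :=
  ∃ (S : Type) (_ : TopologicalSpace S) (_ : ChartedSpace ℂ S) (h : S → Y),
    IsManifold 𝓘(ℂ, ℂ) ω S ∧ CompactSpace S ∧ ConnectedSpace S ∧
    ContMDiff 𝓘(ℂ, ℂ) 𝓘(ℂ, En n) ω h ∧ range h ⊆ A ∧ p ∈ range h ∧ q ∈ range h ∧
    ∀ f : ℂ → S, ContMDiffAt 𝓘(ℂ, ℂ) 𝓘(ℂ, ℂ) ω f 0 → θ.val (fun ζ => h (f ζ)) = 0

/-- The class of `θ` is big, with a Kähler current which is smooth outside the closed set `A`: the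
function `ψ` is smooth outside `A` and has the limit `-∞` at the points of `A`, and
`θ + dd^c ψ ≥ δ Ω` outside `A`. -/
def BigOff (Ω θ : Form n Y) (A : Set Y) : Prop :=
  IsClosed A ∧ ∃ (δ : ℝ) (ψ : Y → ℝ), 0 < δ ∧
    (∀ p, p ∉ A → ContMDiffAt 𝓘(ℝ, En n) 𝓘(ℝ, ℝ) ∞ ψ p) ∧
    (∀ p ∈ A, Tendsto ψ (𝓝[Aᶜ] p) atBot) ∧
    ∀ f : ℂ → Y, IsDisc n f → f 0 ∉ A →
      δ * Ω.val f ≤ θ.val f + Laplacian.laplacian (fun ζ : ℂ => ψ (f ζ)) 0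

/-- `u` is smooth near `p` and `θ + dd^c u ≥ c Ω` near `p` -/
def SM (Ω θ : Form n Y) (c : ℝ) (u : Y → ℝ) (p : Y) : Prop :=
  ∀ᶠ q in 𝓝 p, ContMDiffAt 𝓘(ℝ, En n) 𝓘(ℝ, ℝ) ∞ u q ∧ ∀ f : ℂ → Y, IsDisc n f → f 0 = q →
    c * Ω.val f ≤ θ.val f + Laplacian.laplacian (fun ζ : ℂ => u (f ζ)) 0

end

/-! ### The parts of the proof -/

/-- the real manifold underlying a complex manifold -/
def StReal : Prop := ∀ (n : ℕ) (Y : Type) [TopologicalSpace Y] [ChartedSpace (En n) Y],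
  IsManifold 𝓘(ℂ, En n) ω Y → IsManifold 𝓘(ℝ, En n) ∞ Y

/-- cut-off functions: `η = 1` near `p`, with support in the given neighbourhood `N`, and
`|dd^c η| ≤ C Ω` -/
def StBump : Prop := ∀ (n : ℕ) (Y : Type) [TopologicalSpace Y] [ChartedSpace (En n) Y],
  IsManifold 𝓘(ℂ, En n) ω Y → T2Space Y → ∀ (Ω : Form n Y), Ω.IsKahler → ∀ (p : Y), ∀ N ∈ 𝓝 p,
  ∃ (η : Y → ℝ) (C : ℝ), ContMDiff 𝓘(ℝ, En n) 𝓘(ℝ, ℝ) ∞ η ∧ (∀ q, 0 ≤ η q ∧ η q ≤ 1) ∧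
    (∀ᶠ q in 𝓝 p, η q = 1) ∧ tsupport η ⊆ N ∧ 0 < C ∧
    ∀ f : ℂ → Y, IsDisc n f → |Laplacian.laplacian (fun ζ : ℂ => η (f ζ)) 0| ≤ C * Ω.val f

/-- local smoothing of `(1 - t) φ + t ψ` -/
def StLoc : Prop := ∀ (n : ℕ) (Y : Type) [TopologicalSpace Y] [ChartedSpace (En n) Y],
  IsManifold 𝓘(ℂ, En n) ω Y → T2Space Y → ∀ (Ω θ : Form n Y) (φ ψ : Y → ℝ) (p : Y) (δ t : ℝ),
  Continuous φ → PshAt n (fun q => θ.pot p q + φ q) p → SM Ω θ δ ψ p → 0 < δ → 0 < t → t < 1 →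
  ∃ N ∈ 𝓝 p, ∀ ε : ℝ, 0 < ε → ∃ u : Y → ℝ, ∀ q ∈ N, SM Ω θ (t * δ) u q ∧
    |u q - ((1 - t) * φ q + t * ψ q)| < ε

/-- the regularised maximum -/
def StMx : Prop := ∃ m : ℝ → ℝ, ContDiff ℝ ∞ m ∧ (∀ r, r ≤ -1 → m r = 0) ∧
  (∀ r, 1 ≤ r → m r = r) ∧ (∀ r, max 0 r ≤ m r ∧ m r ≤ max 0 r + 1) ∧
  ∀ (n : ℕ) (Y : Type) [TopologicalSpace Y] [ChartedSpace (En n) Y],
  IsManifold 𝓘(ℂ, En n) ω Y → ∀ (Ω θ : Form n Y) (c s : ℝ) (u v : Y → ℝ) (p : Y), 0 < s →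
  SM Ω θ c u p → SM Ω θ c v p → SM Ω θ c (fun q => v q + s * m ((u q - v q) / s)) p

/-- elementary operations -/
def StOp : Prop := ∀ (n : ℕ) (Y : Type) [TopologicalSpace Y] [ChartedSpace (En n) Y],
  IsManifold 𝓘(ℂ, En n) ω Y → ∀ (Ω θ : Form n Y) (p : Y), Ω.IsKahler →
  (∀ (c c' : ℝ) (u : Y → ℝ), c' ≤ c → SM Ω θ c u p → SM Ω θ c' u p) ∧
  (∀ (c : ℝ) (u v : Y → ℝ), (∀ᶠ q in 𝓝 p, u q = v q) → SM Ω θ c u p → SM Ω θ c v p) ∧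
  (∀ (c C a b : ℝ) (u η : Y → ℝ), 0 ≤ a → SM Ω θ c u p → ContMDiff 𝓘(ℝ, En n) 𝓘(ℝ, ℝ) ∞ η →
    (∀ f : ℂ → Y, IsDisc n f → |Laplacian.laplacian (fun ζ : ℂ => η (f ζ)) 0| ≤ C * Ω.val f) →
    SM Ω θ (c - a * C) (fun q => u q + a * η q + b) p) ∧
  (∀ (u : Y → ℝ) (a : ℝ), θ.Semipositive → (∀ᶠ q in 𝓝 p, u q = a) → SM Ω θ 0 u p)

/-- Richberg's theorem near a compact set -/
def StRich : Prop := ∀ (n : ℕ) (Y : Type) [TopologicalSpace Y] [ChartedSpace (En n) Y],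
  IsManifold 𝓘(ℂ, En n) ω Y → T2Space Y → ∀ (Ω θ : Form n Y) (φ ψ : Y → ℝ) (δ t : ℝ),
  Ω.IsKahler → IsPsh θ φ → 0 < δ → 0 < t → t < 1 → ∀ (K O : Set Y), IsCompact K → IsOpen O →
  K ⊆ O → (∀ p ∈ O, SM Ω θ δ ψ p) → ∃ U : Set Y, IsOpen U ∧ K ⊆ U ∧ U ⊆ O ∧
  ∀ ε : ℝ, 0 < ε → ∃ v : Y → ℝ, ∀ q ∈ U, SM Ω θ (t * δ / 2) v q ∧
    |v q - ((1 - t) * φ q + t * ψ q)| < ε

/-- functions are constant along null curves -/
def StNull : Prop := ∀ (n : ℕ) (Y : Type) [TopologicalSpace Y] [ChartedSpace (En n) Y],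
  IsManifold 𝓘(ℂ, En n) ω Y → ∀ (θ : Form n Y) (φ : Y → ℝ) (A : Set Y), IsPsh θ φ →
  ∀ p q, NullCurve θ A p q → φ p = φ q

/-- approximation, if the function is locally constant on `A` -/
def StApp : Prop := ∀ (n : ℕ) (Y : Type) [TopologicalSpace Y] [ChartedSpace (En n) Y],
  IsManifold 𝓘(ℂ, En n) ω Y → T2Space Y → CompactSpace Y → ∀ (Ω θ : Form n Y) (φ : Y → ℝ)
  (A : Set Y), Ω.IsKahler → θ.Semipositive → BigOff Ω θ A → IsPsh θ φ →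
  (∀ p ∈ A, ∀ᶠ q in 𝓝[A] p, φ q = φ p) →
  ∀ ε : ℝ, 0 < ε → ∃ u : Y → ℝ, IsSmoothPsh θ u ∧ ∀ q, |u q - φ q| ≤ ε

end Pool.Agent.Y184.RB
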