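import Pool.Agent.Y184.RB.Base

/-!
# Smooth approximation of continuous quasi-plurisubharmonic functions: local statements
-/

set_option autoImplicit false

open Set Topology Filter
open scoped ContDiff Manifold

namespace Pool.Agent.Y184.RB

/-- the Levi form of `ρ` at `z` in the direction `v` (the Laplacian along the complex line) -/
noncomputable def lev {n : ℕ} (ρ : En n → ℝ) (z v : En n) : ℝ :=
  Laplacian.laplacian (fun ζ : ℂ => ρ (z + ζ • v)) 0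

/-- the Levi form: chain rule, continuity, homogeneity, value at zero -/
def StLevN : Prop := ∀ n : ℕ,
  (∀ (ρ : En n → ℝ) (f : ℂ → En n), ContDiffAt ℂ ω f 0 → ContDiffAt ℝ 2 ρ (f 0) →
    Laplacian.laplacian (fun ζ : ℂ => ρ (f ζ)) 0 = lev ρ (f 0) (deriv f 0)) ∧
  (∀ (ρ : En n → ℝ) (z v : En n), (∀ᶠ z' in 𝓝 z, ContDiffAt ℝ ∞ ρ z') →
    ContinuousAt (fun p : En n × En n => lev ρ p.1 p.2) (z, v)) ∧
  (∀ (ρ : En n → ℝ) (z v : En n) (c : ℂ), ContDiffAt ℝ 2 ρ z →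
    lev ρ z (c • v) = ‖c‖ ^ 2 * lev ρ z v)

/-- smoothing of plurisubharmonic functions in `ℂⁿ` -/
def StSmE : Prop := ∀ (n : ℕ) (G : En n → ℝ) (z0 : En n) (r : ℝ), 0 < r →
  ContinuousOn G (Metric.ball z0 r) →
  (∀ z v : En n, ‖z - z0‖ + ‖v‖ < r →
    G z ≤ Real.circleAverage (fun ζ : ℂ => G (z + ζ • v)) 0 1) →
  ∀ ε : ℝ, 0 < ε → ∃ H : En n → ℝ, ContDiff ℝ ∞ H ∧ ∀ z ∈ Metric.ball z0 (r / 2),
    |H z - G z| < ε ∧ ∀ v : En n, 0 ≤ lev H z v

/-- smooth functions with `θ + dd^c ψ ≥ δ Ω` have the submean value property -/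
def StSub2 : Prop := ∀ (n : ℕ) (Y : Type) [TopologicalSpace Y] [ChartedSpace (En n) Y],
  IsManifold 𝓘(ℂ, En n) ω Y → ∀ (Ω θ : Form n Y) (ψ : Y → ℝ) (δ : ℝ) (p : Y), SM Ω θ δ ψ p →
  PshAt n (fun q => θ.pot p q + ψ q - δ * Ω.pot p q) p

end Pool.Agent.Y184.RB
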