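import Pool.Agent.Y184.RB.AppL
import Pool.Agent.Y77.RB.Lev
import Pool.Agent.Y340.RB.Mx
import Pool.Agent.Y475.RB.SmE
import Pool.Agent.Y684.RB.Null
import Pool.Agent.Y79.RB.Sub2
import Pool.Agent.Y153.RB.Loc
import Pool.Agent.Y768.RB.Bump

/-!
The parts of the proof, proved by helpers 77, 340, 475, 684, 79, 153 and 768, and the localisation
theorem.
-/

set_option autoImplicit false

open Set Topology Filter
open scoped ContDiff Manifold

namespace Pool.Agent.Y184.RB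

theorem hLev : StLevN := Pool.Agent.Y77.RB.t_LevN
theorem hOp : StOp := Pool.Agent.Y77.RB.t_Op
theorem hReal : StReal := Pool.Agent.Y768.RB.stReal
theorem hBump : StBump := Pool.Agent.Y768.RB.stBump hLev
theorem hMx : StMx := Pool.Agent.Y340.RB.stMx
theorem hLoc : StLoc := Pool.Agent.Y153.RB.loc hReal hLev Pool.Agent.Y475.RB.t_SmE
  Pool.Agent.Y79.RB.t hOp
theorem hRich : StRich := rich hBump hLoc hMx hOp
theorem hApp : StApp := app hRich hMx hOp
theorem hNull : StNull := Pool.Agent.Y684.RB.null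

/-- the smooth function `h` is `θ`-plurisubharmonic on the open set `V` -/
def SmoothPshOn {n : ℕ} {Y : Type} [TopologicalSpace Y] [ChartedSpace (En n) Y] (θ : Form n Y)
    (h : Y → ℝ) (V : Set Y) : Prop :=
  ∀ q ∈ V, ContMDiffAt 𝓘(ℝ, En n) 𝓘(ℝ, ℝ) ∞ h q ∧ ∀ f : ℂ → Y, IsDisc n f → f 0 = q →
    0 ≤ θ.val f + Laplacian.laplacian (fun ζ : ℂ => h (f ζ)) 0

theorem localization (n : ℕ) (Y : Type) [TopologicalSpace Y] [ChartedSpace (En n) Y]
    (hman : IsManifold 𝓘(ℂ, En n) ω Y) (hT2 : T2Space Y) (hcpt : CompactSpace Y)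
    (Ω θ : Form n Y) (A : Set Y) (hK : Ω.IsKahler) (hbig : BigOff Ω θ A) (φ : Y → ℝ)
    (hφ : IsPsh θ φ) :
    (∃ u : ℕ → Y → ℝ, (∀ k, IsSmoothPsh θ (u k)) ∧ (∀ k q, u (k + 1) q ≤ u k q) ∧
      ∀ q, Tendsto (fun k => u k q) atTop (𝓝 (φ q))) ↔
    ∀ ε : ℝ, 0 < ε → ∃ (V : Set Y) (h : Y → ℝ), IsOpen V ∧ A ⊆ V ∧ SmoothPshOn θ h V ∧
      ∀ q ∈ V, |h q - φ q| < ε := by
  constructor
  · rintro ⟨u, hu, hdec, hlim⟩ ε hε
    have hunif : TendstoUniformly u φ atTop :=
      Antitone.tendstoUniformly_of_forall_tendsto (fun k => (hu k).1.continuous)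
        (antitone_nat_of_succ_le fun k q => hdec k q) hφ.1 hlim
    rw [Metric.tendstoUniformly_iff] at hunif
    obtain ⟨k, hk⟩ := (hunif ε hε).exists
    refine ⟨univ, u k, isOpen_univ, subset_univ _, fun q _ => ⟨(hu k).1 q, fun f hf _ =>
      (hu k).2 f hf⟩, fun q _ => ?_⟩
    have h1 := hk q
    rwa [dist_comm, Real.dist_eq] at h1
  · intro hnear
    have happ := appL hRich hMx hOp n Y hman hT2 hcpt Ω θ φ A hK hbig hφ (fun ε hε => by
      obtain ⟨V, h, hV, hAV, hh, hc⟩ := hnear ε hε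
      refine ⟨V, h, hV, hAV, fun q hq => ⟨?_, hc q hq⟩⟩
      filter_upwards [hV.mem_nhds hq] with q' hq'
      refine ⟨(hh q' hq').1, fun f hf h0 => ?_⟩
      rw [zero_mul]
      exact (hh q' hq').2 f hf h0)
    have hpos : ∀ k : ℕ, (0 : ℝ) < (1 / 2) ^ k / 8 := fun k => by positivity
    choose v hv1 hv2 using fun k : ℕ => happ ((1 / 2) ^ k / 8) (hpos k)
    refine ⟨fun k q => v k q + 3 * ((1 / 2) ^ k / 8),
      fun k => (hv1 k).add_const hOp hman hK _, fun k q => ?_, fun q => ?_⟩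
    · have h1 := hv2 k q
      have h2 := hv2 (k + 1) q
      rw [abs_le] at h1 h2
      have h3 : ((1 : ℝ) / 2) ^ (k + 1) = (1 / 2) ^ k / 2 := by
        rw [pow_succ]
        ring
      simp only [h3] at h2 ⊢
      linarith
    · rw [Metric.tendsto_atTop]
      intro ε hε
      have hlim : Tendsto (fun k : ℕ => ((1 : ℝ) / 2) ^ k) atTop (𝓝 0) :=
        tendsto_pow_atTop_nhds_zero_of_lt_one (r := (1 : ℝ) / 2) (by norm_num) (by norm_num)
      obtain ⟨N, hN⟩ := eventually_atTop.1 (hlim.eventually (gt_mem_nhds hε))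
      refine ⟨N, fun k hk => ?_⟩
      have h1 := hv2 k q
      have h2 := hN k hk
      have h3 := hpos k
      rw [abs_le] at h1
      rw [Real.dist_eq, abs_lt]
      constructor <;> linarith

end Pool.Agent.Y184.RB
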