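import Pool.Agent.Y184.RB.Base2

/-!
# Richberg's theorem near a compact set, by gluing with the regularised maximum
-/

set_option autoImplicit false

open Set Topology Filter
open scoped ContDiff Manifold

namespace Pool.Agent.Y184.RB

section

variable {n : ℕ} {Y : Type} [TopologicalSpace Y] [ChartedSpace (En n) Y]

/-- approximability on `U` -/
def Rb (Ω θ : Form n Y) (g : Y → ℝ) (c : ℝ) (U : Set Y) : Prop :=
  ∀ ε : ℝ, 0 < ε → ∃ v : Y → ℝ, ∀ q ∈ U, SM Ω θ c v q ∧ |v q - g q| < ε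

end

/-- the values of the regularised maximum -/
structure IsM (m : ℝ → ℝ) : Prop where
  low : ∀ r, r ≤ -1 → m r = 0
  high : ∀ r, 1 ≤ r → m r = r
  bd : ∀ r, max 0 r ≤ m r ∧ m r ≤ max 0 r + 1

/-- the regularised maximum with parameter `s` -/
noncomputable def Mx (m : ℝ → ℝ) (s x y : ℝ) : ℝ := y + s * m ((x - y) / s)

theorem Mx_left {m : ℝ → ℝ} (hm : IsM m) {s x y : ℝ} (hs : 0 < s) (h : x - y ≤ -s) :
    Mx m s x y = y := by
  have h1 : (x - y) / s ≤ -1 := by
    rw [div_le_iff₀ hs]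
    linarith
  rw [Mx, hm.low _ h1, mul_zero, add_zero]

theorem Mx_right {m : ℝ → ℝ} (hm : IsM m) {s x y : ℝ} (hs : 0 < s) (h : s ≤ x - y) :
    Mx m s x y = x := by
  have h1 : 1 ≤ (x - y) / s := by
    rw [le_div_iff₀ hs]
    linarith
  rw [Mx, hm.high _ h1]
  field_simp
  ring

theorem Mx_bd {m : ℝ → ℝ} (hm : IsM m) {s x y : ℝ} (hs : 0 < s) :
    max x y ≤ Mx m s x y ∧ Mx m s x y ≤ max x y + s := by
  obtain ⟨h1, h2⟩ := hm.bd ((x - y) / s)
  have h3 : s * max 0 ((x - y) / s) = max 0 (x - y) := by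
    rw [mul_max_of_nonneg _ _ hs.le, mul_zero, mul_div_cancel₀ _ hs.ne']
  have h4 : y + max 0 (x - y) = max x y := by
    rw [← max_add_add_left, add_zero, add_sub_cancel, max_comm]
  have h5 := mul_le_mul_of_nonneg_left h1 hs.le
  have h6 := mul_le_mul_of_nonneg_left h2 hs.le
  rw [mul_add, mul_one, h3] at h6
  rw [h3] at h5
  unfold Mx
  constructor <;> linarith

section

variable {n : ℕ} {Y : Type} [TopologicalSpace Y] [ChartedSpace (En n) Y]

open Classical in
theorem step {m : ℝ → ℝ} (hm : IsM m)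
    {Ω θ : Form n Y} (hmx : ∀ (c s : ℝ) (u v : Y → ℝ) (p : Y), 0 < s →
      SM Ω θ c u p → SM Ω θ c v p → SM Ω θ c (fun q => v q + s * m ((u q - v q) / s)) p)
    (h1 : ∀ (p : Y) (c c' : ℝ) (u : Y → ℝ), c' ≤ c → SM Ω θ c u p → SM Ω θ c' u p)
    (h2 : ∀ (p : Y) (c : ℝ) (u v : Y → ℝ), (∀ᶠ q in 𝓝 p, u q = v q) → SM Ω θ c u p → SM Ω θ c v p)
    {η : Y → ℝ} {C : ℝ} (hC : 0 < C)
    (h3 : ∀ (p : Y) (c a b : ℝ) (u : Y → ℝ), 0 ≤ a → SM Ω θ c u p →
      SM Ω θ (c - a * C) (fun q => u q + a * η q + b) p)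
    (hη : ∀ q, 0 ≤ η q ∧ η q ≤ 1) {N N' U : Set Y} (hNo : IsOpen N) (hN'o : IsOpen N')
    (hUo : IsOpen U) (hN' : ∀ q ∈ N', η q = 1) (hs : tsupport η ⊆ N) {g : Y → ℝ} {c0 : ℝ}
    (hc0 : 0 < c0) (hN : Rb Ω θ g c0 N) (hU : Rb Ω θ g (c0 / 2) U) :
    Rb Ω θ g (c0 / 2) (U ∪ N') := by
  have hN'N : N' ⊆ N := fun q hq => hs (subset_tsupport η (by
    rw [Function.mem_support, hN' q hq]
    exact one_ne_zero))
  intro ε hε
  obtain ⟨a, ha, haε, haC⟩ : ∃ a : ℝ, 0 < a ∧ a ≤ ε / 2 ∧ 2 * a * C ≤ c0 / 2 := by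
    refine ⟨min (ε / 2) (c0 / (4 * C)), by positivity, min_le_left _ _, ?_⟩
    have h4 := min_le_right (ε / 2) (c0 / (4 * C))
    rw [le_div_iff₀ (by positivity)] at h4
    linarith
  obtain ⟨u, hu⟩ := hN (a / 4) (by positivity)
  obtain ⟨v, hv⟩ := hU (a / 4) (by positivity)
  obtain ⟨ua, hua⟩ : ∃ ua : Y → ℝ, ua = fun q => u q + 2 * a * η q + (-a) := ⟨_, rfl⟩
  have huaN : ∀ q ∈ N, SM Ω θ (c0 / 2) ua q := by
    intro q hq
    rw [hua]
    exact h1 q _ _ _ (by linarith) (h3 q c0 (2 * a) (-a) u (by positivity) (hu q hq).1)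
  have ha2 : 0 < a / 2 := by positivity
  obtain ⟨w, hw⟩ : ∃ w : Y → ℝ, w = fun q =>
    if q ∈ N then (if q ∈ U then Mx m (a / 2) (ua q) (v q) else ua q) else v q := ⟨_, rfl⟩
  refine ⟨w, fun q hq => ?_⟩
  by_cases hqU : q ∈ U
  · by_cases hqN : q ∈ N
    · constructor
      · refine h2 q _ _ _ ?_ (hmx (c0 / 2) (a / 2) ua v q ha2 (huaN q hqN) (hv q hqU).1)
        filter_upwards [hUo.mem_nhds hqU, hNo.mem_nhds hqN] with q' h4 h5
        rw [hw]
        simp only [h4, h5, if_true]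
        rfl
      · have h4 : w q = Mx m (a / 2) (ua q) (v q) := by
          rw [hw]
          simp only [hqU, hqN, if_true]
        rw [h4]
        obtain ⟨h5, h6⟩ := Mx_bd hm (x := ua q) (y := v q) ha2
        have h7 := (hu q hqN).2
        have h8 := (hv q hqU).2
        rw [abs_lt] at h7 h8 ⊢
        obtain ⟨h9, h10⟩ := hη q
        have h11 : ua q ≤ u q + a := by
          rw [hua]
          simp only
          nlinarith
        have h12 : v q ≤ max (ua q) (v q) := le_max_right _ _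
        have h13 : max (ua q) (v q) ≤ g q + 5 * a / 4 := max_le (by linarith) (by linarith)
        constructor <;> linarith
    · constructor
      · refine h2 q _ _ _ ?_ (hv q hqU).1
        have h4 : ∀ᶠ q' in 𝓝 q, q' ∉ tsupport η :=
          (isClosed_tsupport η).isOpen_compl.mem_nhds (fun h => hqN (hs h))
        filter_upwards [hUo.mem_nhds hqU, h4] with q' h5 h6
        rw [hw]
        simp only [h5, if_true]
        by_cases h7 : q' ∈ N
        · rw [if_pos h7, Mx_left hm ha2]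
          have h8 : η q' = 0 := image_eq_zero_of_notMem_tsupport h6
          have h9 := (hu q' h7).2
          have h10 := (hv q' h5).2
          rw [abs_lt] at h9 h10
          rw [hua]
          simp only [h8]
          linarith
        · rw [if_neg h7]
      · have h4 : w q = v q := by
          rw [hw]
          simp only [hqN, if_false]
        rw [h4]
        have := (hv q hqU).2
        linarith
  · have hqN' : q ∈ N' := hq.resolve_left hqU
    have hqN : q ∈ N := hN'N hqN'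
    constructor
    · refine h2 q _ _ _ ?_ (huaN q hqN)
      filter_upwards [hN'o.mem_nhds hqN'] with q' h4
      rw [hw]
      simp only [hN'N h4, if_true]
      by_cases h5 : q' ∈ U
      · rw [if_pos h5, Mx_right hm ha2]
        have h8 := hN' q' h4
        have h9 := (hu q' (hN'N h4)).2
        have h10 := (hv q' h5).2
        rw [abs_lt] at h9 h10
        rw [hua]
        simp only [h8]
        linarith
      · rw [if_neg h5]
    · have h4 : w q = ua q := by
        rw [hw]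
        simp only [hqN, hqU, if_true, if_false]
      rw [h4, hua]
      simp only [hN' q hqN']
      have h7 := (hu q hqN).2
      rw [abs_lt] at h7 ⊢
      constructor <;> linarith

end

theorem rich (hBump : StBump) (hLoc : StLoc) (hMx : StMx) (hOp : StOp) : StRich := by
  intro n Y _ _ hman hT2 Ω θ φ ψ δ t hK hφ hδ ht ht1 K O hKc hO hKO hψ
  obtain ⟨m, _, hm1, hm2, hm3, hm4⟩ := hMx
  have hm : IsM m := ⟨hm1, hm2, hm3⟩
  obtain ⟨g, hg⟩ : ∃ g : Y → ℝ, g = fun q => (1 - t) * φ q + t * ψ q := ⟨_, rfl⟩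
  have hc0 : 0 < t * δ := mul_pos ht hδ
  have key : ∀ U : Set Y, IsOpen U → U ⊆ O → Rb Ω θ g (t * δ / 2) U →
      ∃ U' : Set Y, IsOpen U' ∧ U ∪ K ⊆ U' ∧ U' ⊆ O ∧ Rb Ω θ g (t * δ / 2) U' := by
    refine hKc.induction_on (p := fun s => ∀ U : Set Y, IsOpen U → U ⊆ O →
      Rb Ω θ g (t * δ / 2) U →
      ∃ U' : Set Y, IsOpen U' ∧ U ∪ s ⊆ U' ∧ U' ⊆ O ∧ Rb Ω θ g (t * δ / 2) U') ?_ ?_ ?_ ?_
    · intro U h1 h2 h3
      exact ⟨U, h1, by rw [union_empty], h2, h3⟩
    · intro s s' hss h U h1 h2 h3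
      obtain ⟨U', h4, h5, h6, h7⟩ := h U h1 h2 h3
      exact ⟨U', h4, (union_subset_union_right U hss).trans h5, h6, h7⟩
    · intro s s' h h' U h1 h2 h3
      obtain ⟨U', h4, h5, h6, h7⟩ := h U h1 h2 h3
      obtain ⟨U'', h8, h9, h10, h11⟩ := h' U' h4 h6 h7
      refine ⟨U'', h8, ?_, h10, h11⟩
      rintro q (hq | hq | hq)
      · exact h9 (Or.inl (h5 (Or.inl hq)))
      · exact h9 (Or.inl (h5 (Or.inr hq)))
      · exact h9 (Or.inr hq)
    · intro p hp
      obtain ⟨N0, hN0, hN⟩ := hLoc n Y hman hT2 Ω θ φ ψ p δ t hφ.1 (hφ.2 p) (hψ p (hKO hp)) hδ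
        ht ht1
      have hN1 : interior N0 ∩ O ∈ 𝓝 p :=
        inter_mem (interior_mem_nhds.2 hN0) (hO.mem_nhds (hKO hp))
      obtain ⟨η, C, hηs, hη, hη1, hsupp, hC, hηC⟩ :=
        hBump n Y hman hT2 Ω hK p _ hN1
      obtain ⟨N', hN', hN'o, hpN'⟩ := eventually_nhds_iff.1 hη1
      refine ⟨N', mem_nhdsWithin_of_mem_nhds (hN'o.mem_nhds hpN'), ?_⟩
      intro U h1 h2 h3
      have hN'N : N' ⊆ interior N0 ∩ O := fun q hq => hsupp (subset_tsupport η (by
        rw [Function.mem_support, hN' q hq]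
        exact one_ne_zero))
      refine ⟨U ∪ N', h1.union hN'o, Subset.rfl, union_subset h2 fun q hq => (hN'N hq).2, ?_⟩
      refine step hm (fun c s u v p hs hu hv => hm4 n Y hman Ω θ c s u v p hs hu hv)
        (fun p => (hOp n Y hman Ω θ p hK).1) (fun p => (hOp n Y hman Ω θ p hK).2.1) hC
        (fun p c a b u ha hu => (hOp n Y hman Ω θ p hK).2.2.1 c C a b u η ha hu hηs hηC) hη
        (isOpen_interior.inter hO) hN'o h1 hN' hsupp hc0 ?_ h3
      intro ε hε
      obtain ⟨u, hu⟩ := hN ε hε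
      refine ⟨u, fun q hq => ?_⟩
      rw [hg]
      exact hu q (interior_subset hq.1)
  obtain ⟨U, h1, h2, h3, h4⟩ := key ∅ isOpen_empty (empty_subset _) fun ε _ =>
    ⟨0, fun q hq => absurd hq (Set.notMem_empty q)⟩
  refine ⟨U, h1, subset_union_right.trans h2, h3, fun ε hε => ?_⟩
  obtain ⟨v, hv⟩ := h4 ε hε
  refine ⟨v, fun q hq => ?_⟩
  have h5 := hv q hq
  rw [hg] at h5
  exact h5

end Pool.Agent.Y184.RB
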